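import Pool.Agent.SZG.StmtsS

set_option autoImplicit false

/-!
# Row LOR of squad SZG (problem MP_160b6c_nt)

Output of the local part: the interpolation matrix is short at a place of `S`.
-/

namespace Pool.Agent.SZG.H64

open scoped BigOperators
open Pool.Agent.THS Pool.Agent.SZG

/-! ### signs -/

theorem sgn_prod {g : ℕ} (b c : Ch g) : sgn b c = ∏ i, (-1 : ℤ) ^ ((b i).val * (c i).val) := by
  unfold sgn
  rw [Finset.prod_pow_eq_pow_sum]

theorem sgn_one (b c d : ZMod 2) :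
    (-1 : ℤ) ^ (b.val * (c + d).val) = (-1) ^ (b.val * c.val) * (-1) ^ (b.val * d.val) := by
  revert b c d
  decide

theorem sgn_add {g : ℕ} (b c d : Ch g) : sgn b (c + d) = sgn b c * sgn b d := by
  rw [sgn_prod, sgn_prod, sgn_prod, ← Finset.prod_mul_distrib]
  exact Finset.prod_congr rfl fun i _ => sgn_one (b i) (c i) (d i)

theorem sgn_sq {g : ℕ} (b c : Ch g) : sgn b c * sgn b c = 1 := by
  unfold sgn
  rw [← mul_pow]
  norm_num

theorem sgn_cases {g : ℕ} (b c : Ch g) : sgn b c = 1 ∨ sgn b c = -1 := by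
  unfold sgn
  exact neg_one_pow_eq_or ℤ _

theorem v_sgn {K : Type} [Field K] (v : AbsoluteValue K ℝ) {g : ℕ} (b c : Ch g) :
    v ((sgn b c : ℤ) : K) = 1 := by
  rcases sgn_cases b c with h | h
  · rw [h, Int.cast_one, map_one]
  · rw [h, Int.cast_neg, Int.cast_one, v.map_neg, map_one]

theorem ch_add {g : ℕ} (a d : Ch g) : a + d + d = a := by
  funext i
  have h : ∀ x y : ZMod 2, x + y + y = x := by decide
  exact h (a i) (d i)

theorem nv_pos {K : Type} [Field K] (v : AbsoluteValue K ℝ) {g : ℕ} {y : Ch g → K} (h : y ≠ 0) :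
    0 < nv v y := by
  obtain ⟨i, hi⟩ : ∃ i, y i ≠ 0 := by
    by_contra h1
    push Not at h1
    exact h (funext h1)
  unfold nv
  exact (v.pos hi).trans_le (le_ciSup (Set.finite_range fun i => v (y i)).bddAbove i)

theorem lor (nfo : NfoStmt) (rle : RleStmt) (lsh : LshStmt) (rbd : RbdStmt) (rgi : RgiStmt)
    (ral : RalStmt) (qsa : QsaStmt) : LorStmt := by
  intro g L
  obtain ⟨n1, hn1⟩ := lsh g L
  obtain ⟨c', hc'⟩ := ral n1 g L
  refine ⟨c', ?_⟩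
  intro K I _ _ v θ ρ E L0 c e s T x W X Z δ l hρ0 hρ1 hρ hD hlδ b1 hb1 a
  obtain ⟨A, R, hA, hR, hvA, hvR, hN⟩ := nfo K I v θ g E L0 c e s T x W X Z δ hD
  have ho : ∀ k : ℤ, ∃ p : Ch g, v (T (k • Z) p) = nv v (T (k • Z)) := fun k =>
    exists_eq_ciSup_of_finite
  choose o ho using ho
  obtain ⟨hS, hf⟩ := hn1 K I v θ ρ E L0 c e s T x W X Z δ A R o l hρ0 hρ1 hρ hD hA hR hvA hvR hN ho
  have h2δ : (2 * (l : ℤ)) • δ ∈ L0 := by
    rw [mul_smul]
    exact L0.zsmul_mem hlδ 2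
  have h2b : (2 * (l : ℤ)) • b1 ∈ L0 := by
    rw [mul_smul]
    exact L0.zsmul_mem hb1 2
  have hη : e ((2 * (l : ℤ)) • δ) Z ≠ 0 := hD.qs.ene _ h2δ Z
  have hξ : e ((2 * (l : ℤ)) • b1) Z ≠ 0 := hD.qs.ene _ h2b Z
  have hT0 : 0 < nv v (T 0) := nv_pos v (hD.qs.T0 0)
  have hτ : ∀ k : ℤ, T (((l : ℤ) * k) • Z) (o ((l : ℤ) * k)) ≠ 0 := by
    intro k
    rw [← v.ne_zero_iff, ho]
    exact (nv_pos v (hD.qs.T0 _)).ne'
  have key := hc' K v θ (fun k => o ((l : ℤ) * k))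
    (fun a k u => T (((l : ℤ) * k) • Z + ((2 : ℤ) • b1 + (2 * u) • δ)) a)
    (fun d k u => T (((l : ℤ) * k) • Z - (2 * u) • δ) d)
    (fun k => x (((l : ℤ) * k) • Z + b1))
    (fun u ab => (sgn ab.2 ab.1 : K) * x (b1 + (2 * u) • δ) ab)
    s (A ^ 4) (R ^ (l : ℤ)) (e ((2 * (l : ℤ)) • δ) Z) (e ((2 * (l : ℤ)) • b1) Z)
    (fun k => T (((l : ℤ) * k) • Z) (o ((l : ℤ) * k)))
    (fun k u => fn T A R Z δ o ((l : ℤ) * k) (-u) (o ((l : ℤ) * k)))
    (fun k => nv v (T 0) * W (((l : ℤ) * k) • Z))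
    (fun u => W ((2 : ℤ) • b1 + (2 * u) • δ))
    hD.na hD.v2 hD.th0 hD.th1 (pow_ne_zero 4 hA) (zpow_ne_zero _ hR) hη hξ hτ
    (fun k => (mul_pos hT0 (hD.wx.pos _)).le) (fun u => (hD.wx.pos _).le)
    (by
      intro a d k u
      have h1 := rgi g K I T (a + d) d (((l : ℤ) * k) • Z + b1) (b1 + (2 * u) • δ)
      rw [ch_add] at h1
      have h2 : ((l : ℤ) * k) • Z + b1 + (b1 + (2 * u) • δ) =
          ((l : ℤ) * k) • Z + ((2 : ℤ) • b1 + (2 * u) • δ) := by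
        rw [two_zsmul]
        abel
      have h3 : ((l : ℤ) * k) • Z + b1 - (b1 + (2 * u) • δ) =
          ((l : ℤ) * k) • Z - (2 * u) • δ := by
        abel
      rw [h2, h3] at h1
      refine h1.symm.trans (Finset.sum_congr rfl fun b _ => ?_)
      rw [hD.qs.rie]
      have h4 : ((sgn b a : ℤ) : K) = (sgn b d : K) * (sgn b (a + d) : K) := by
        rw [← Int.cast_mul]
        apply congrArg
        rw [sgn_add, mul_comm, mul_assoc, sgn_sq, mul_one]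
      rw [h4]
      ring)
    (by
      intro k u
      have h1 : ((l : ℤ) * k) • Z - (2 * u) • δ = ((l : ℤ) * k) • Z + (2 * (-u)) • δ := by
        rw [mul_neg, neg_smul, sub_eq_add_neg]
      have h2 : A ^ (4 * (-u) ^ 2) * R ^ ((l : ℤ) * k * (-u)) *
          T (((l : ℤ) * k) • Z) (o ((l : ℤ) * k)) ≠ 0 :=
        mul_ne_zero (mul_ne_zero (zpow_ne_zero _ hA) (zpow_ne_zero _ hR)) (hτ k)
      have h3 : (A ^ 4) ^ (u ^ 2) * (R ^ (l : ℤ)) ^ (-(k * u)) =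
          A ^ (4 * (-u) ^ 2) * R ^ ((l : ℤ) * k * (-u)) := by
        rw [← zpow_natCast A 4, ← zpow_mul, ← zpow_mul, neg_sq]
        have h5 : (l : ℤ) * (-(k * u)) = (l : ℤ) * k * (-u) := by ring
        rw [h5]
        rfl
      show T (((l : ℤ) * k) • Z - (2 * u) • δ) (o ((l : ℤ) * k)) = _
      rw [h3, h1]
      unfold fn
      rw [mul_div_cancel₀ _ h2])
    (by
      intro ab k u
      have h1 := rbd K I v θ g E L0 c e s T x W X Z δ A o l b1 hD hA hvA ho hb1 ab k u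
      have h2 : v ((sgn ab.2 ab.1 : K) * x (b1 + (2 * u) • δ) ab * (A ^ 4) ^ (-(u ^ 2))) =
          v (x (b1 + (2 * u) • δ) ab * (A ^ 4) ^ (-(u ^ 2))) := by
        rw [mul_assoc, map_mul, v_sgn, one_mul]
      rw [h2]
      exact h1)
    (rle K I v θ g E L0 c e s T x W X Z δ A R l hD hlδ hA hR hN)
    hf hS a
  obtain ⟨P, Q, h1, h2⟩ := key
  refine ⟨fun m k => P m (k : ℤ), Q, ?_, ?_⟩
  · intro m k u
    have h3 := h1 m (k : ℤ) u
    have h4 : (l * k) • Z = ((l : ℤ) * (k : ℤ)) • Z := by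
      rw [← Nat.cast_mul, natCast_zsmul]
    rw [h4, mul_comm (v (Q m u))]
    refine h3.trans (le_of_eq ?_)
    ring
  · intro k u
    have h3 := h2 (k : ℤ) u
    have h4 : (l * k) • Z = ((l : ℤ) * (k : ℤ)) • Z := by
      rw [← Nat.cast_mul, natCast_zsmul]
    have h5 : l • ((2 : ℤ) • b1 + (2 * u) • δ) =
        (2 * (l : ℤ)) • b1 + u • ((2 * (l : ℤ)) • δ) := by
      rw [← natCast_zsmul, smul_add, smul_smul, smul_smul, smul_smul]
      have h6 : (l : ℤ) * 2 = 2 * l := by ring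
      have h7 : (l : ℤ) * (2 * u) = u * (2 * l) := by ring
      rw [h6, h7]
    obtain ⟨-, -, -, -, -, hadd, -, -, -⟩ := qsa K I g E L0 c e s T x hD.qs _ h2b
      (u • ((2 * (l : ℤ)) • δ)) (L0.zsmul_mem h2δ u)
    obtain ⟨-, -, -, -, -, -, -, hzs, -⟩ := qsa K I g E L0 c e s T x hD.qs _ h2δ _ h2δ
    have h6 : Mp l e T Z ((2 : ℤ) • b1 + (2 * u) • δ) k a =
        e ((2 * (l : ℤ)) • b1) Z ^ (-(k : ℤ)) * e ((2 * (l : ℤ)) • δ) Z ^ (-((k : ℤ) * u)) *
          T (((l : ℤ) * (k : ℤ)) • Z + ((2 : ℤ) • b1 + (2 * u) • δ)) a := by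
      unfold Mp
      rw [h5, hadd, hzs, h4, mul_inv, mul_pow]
      congr 2
      · rw [zpow_neg, zpow_natCast, inv_pow]
      · rw [← zpow_neg, ← zpow_natCast, ← zpow_mul]
        apply congrArg
        ring
    have h7 : v (Mp l e T Z ((2 : ℤ) • b1 + (2 * u) • δ) k a -
        ∑ m, Q m u * P m (k : ℤ)) ≤
        θ ^ L * ((nv v (T 0) * W (((l : ℤ) * (k : ℤ)) • Z)) *
          W ((2 : ℤ) • b1 + (2 * u) • δ)) := by
      rw [h6]
      have h8 : ∑ m, Q m u * P m (k : ℤ) = ∑ m, P m (k : ℤ) * Q m u :=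
        Finset.sum_congr rfl fun m _ => mul_comm _ _
      rw [h8]
      exact h3
    refine h7.trans (le_of_eq ?_)
    rw [h4]
    ring

end Pool.Agent.SZG.H64
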